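import Mathlib
import Pool.Agent.X130.RelE

set_option autoImplicit false

/-!
# 2-factors with one prescribed directed cycle
-/

namespace Pool.Agent.X130.TF

open Pool.Agent.NPC

/-- The lists describe a digraph without loops and parallel arcs. -/
def IsDigraph (V : List ℕ) (A : List (ℕ × ℕ)) : Prop :=
  V.Nodup ∧ A.Nodup ∧ ∀ a ∈ A, a.1 ∈ V ∧ a.2 ∈ V ∧ a.1 ≠ a.2

/-- Consecutive elements of the list `c`, read cyclically, are in the relation `R`. -/
def Cyclic (R : ℕ → ℕ → Prop) (c : List ℕ) : Prop :=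
  ∀ i < c.length, R (c.getD i 0) (c.getD ((i + 1) % c.length) 0)

/-- `c` is a cycle of the underlying graph. -/
def IsCycle (A : List (ℕ × ℕ)) (c : List ℕ) : Prop :=
  3 ≤ c.length ∧ c.Nodup ∧ Cyclic (fun u v => (u, v) ∈ A ∨ (v, u) ∈ A) c

/-- The property `Π`: the underlying graph has a 2-factor, i.e. vertex-disjoint cycles `C_1, …, C_k`
(`c₁` and the members of `Cs`) covering all vertices, such that `C_1` is a directed cycle. -/
def Good (V : List ℕ) (A : List (ℕ × ℕ)) : Prop :=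
  ∃ (c₁ : List ℕ) (Cs : List (List ℕ)), (∀ c ∈ c₁ :: Cs, IsCycle A c) ∧
    List.Perm (c₁ :: Cs).flatten V ∧ Cyclic (fun u v => (u, v) ∈ A) c₁

/-- The decision problem: does the given digraph have property `Π`? -/
def DirTwoFactor (D : List ℕ × List (ℕ × ℕ)) : Prop := IsDigraph D.1 D.2 ∧ Good D.1 D.2

/-! ### Digraphs given by relations -/

/-- the ordered pairs of elements of `V` in the relation `R` -/
def relA (V : List ℕ) (R : ℕ → ℕ → Bool) : List (ℕ × ℕ) :=
  V.flatMap (fun u => (V.filter (fun v => R u v)).map (fun v => (u, v)))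

theorem mem_relA {V : List ℕ} {R : ℕ → ℕ → Bool} {a b : ℕ} :
    (a, b) ∈ relA V R ↔ a ∈ V ∧ b ∈ V ∧ R a b = true := by
  unfold relA
  simp only [List.mem_flatMap, List.mem_map, List.mem_filter, Prod.mk.injEq]
  constructor
  · rintro ⟨u, hu, v, ⟨hv, h⟩, rfl, rfl⟩
    exact ⟨hu, hv, h⟩
  · rintro ⟨hu, hv, h⟩
    exact ⟨a, hu, b, ⟨hv, h⟩, rfl, rfl⟩

theorem isDigraph_relA {V : List ℕ} {R : ℕ → ℕ → Bool} (hV : V.Nodup) (hR : ∀ a, R a a = false) :
    IsDigraph V (relA V R) := by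
  refine ⟨hV, ?_, ?_⟩
  · unfold relA
    rw [List.nodup_flatMap]
    refine ⟨fun u _ => (hV.filter _).map (fun a b h => by simp only [Prod.mk.injEq] at h; exact h.2), ?_⟩
    refine hV.imp ?_
    intro a b hab x hx hx'
    simp only [List.mem_map] at hx hx'
    obtain ⟨y, _, rfl⟩ := hx
    obtain ⟨z, _, h⟩ := hx'
    simp only [Prod.mk.injEq] at h
    exact hab h.1.symm
  · rintro ⟨a, b⟩ h
    rw [mem_relA] at h
    refine ⟨h.1, h.2.1, ?_⟩
    intro hab
    simp only at hab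
    subst hab
    rw [hR a] at h
    exact absurd h.2.2 (by simp)

theorem relA_poly {α : Type} [TEnc α] {V : α → List ℕ} {R : α → ℕ → ℕ → Bool} (hV : NPC.Poly V)
    (hR : NPC.Poly (fun x : (α × ℕ) × ℕ => R x.1.1 x.1.2 x.2)) :
    NPC.Poly (fun a => relA (V a) (R a)) := by
  unfold relA
  refine NPC.Poly.flatMap (F := fun a u => ((V a).filter (fun v => R a u v)).map
    (fun v => (u, v))) hV ?_
  refine NPC.Poly.map (F := fun (x : α × ℕ) v => (x.2, v)) ?_ (by fun_prop)
  exact NPC.Poly.filter (p := fun (x : α × ℕ) v => R x.1 x.2 v) (by fun_prop) hR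

/-! ### Facts on cyclic lists -/

theorem getD_mem {c : List ℕ} {i : ℕ} (h : i < c.length) : c.getD i 0 ∈ c := by
  rw [List.getD_eq_getElem?_getD, List.getElem?_eq_getElem h]
  exact List.getElem_mem h

theorem mem_getD {c : List ℕ} {v : ℕ} (h : v ∈ c) : ∃ i < c.length, c.getD i 0 = v := by
  obtain ⟨i, hi, h⟩ := List.getElem_of_mem h
  exact ⟨i, hi, by rw [List.getD_eq_getElem?_getD, List.getElem?_eq_getElem hi]; exact h⟩

theorem getD_inj {c : List ℕ} (hc : c.Nodup) {i j : ℕ} (hi : i < c.length) (hj : j < c.length)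
    (h : c.getD i 0 = c.getD j 0) : i = j := by
  rw [List.getD_eq_getElem?_getD, List.getD_eq_getElem?_getD, List.getElem?_eq_getElem hi,
    List.getElem?_eq_getElem hj] at h
  exact (List.Nodup.getElem_inj_iff hc).1 h

theorem cyc_succ {R : ℕ → ℕ → Prop} {c : List ℕ} (h : Cyclic R c) {v : ℕ} (hv : v ∈ c) :
    ∃ w ∈ c, R v w := by
  obtain ⟨i, hi, rfl⟩ := mem_getD hv
  exact ⟨_, getD_mem (Nat.mod_lt _ (by omega)), h i hi⟩

theorem pred_idx {m i : ℕ} (hi : i < m) : ((i + m - 1) % m + 1) % m = i := by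
  rcases Nat.eq_zero_or_pos i with rfl | h
  · rw [Nat.zero_add, Nat.mod_eq_of_lt (show m - 1 < m by omega)]
    have : m - 1 + 1 = m := by omega
    rw [this, Nat.mod_self]
  · have h1 : i + m - 1 = (i - 1) + m := by omega
    rw [h1, Nat.add_mod_right, Nat.mod_eq_of_lt (show i - 1 < m by omega)]
    rw [Nat.mod_eq_of_lt (show i - 1 + 1 < m by omega)]
    omega

theorem cyc_pred {R : ℕ → ℕ → Prop} {c : List ℕ} (h : Cyclic R c) {v : ℕ} (hv : v ∈ c) :
    ∃ w ∈ c, R w v := by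
  obtain ⟨i, hi, rfl⟩ := mem_getD hv
  have h1 : (i + c.length - 1) % c.length < c.length := Nat.mod_lt _ (by omega)
  have h2 := h _ h1
  rw [pred_idx hi] at h2
  exact ⟨_, getD_mem h1, h2⟩

/-- every vertex of a cycle has two different neighbours on it -/
theorem two_nbrs {A : List (ℕ × ℕ)} {c : List ℕ} (h : IsCycle A c) {v : ℕ} (hv : v ∈ c) :
    ∃ a ∈ c, ∃ b ∈ c, a ≠ b ∧ ((a, v) ∈ A ∨ (v, a) ∈ A) ∧ ((v, b) ∈ A ∨ (b, v) ∈ A) := by
  obtain ⟨h3, hn, hc⟩ := h
  obtain ⟨i, hi, rfl⟩ := mem_getD hv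
  have h1 : (i + c.length - 1) % c.length < c.length := Nat.mod_lt _ (by omega)
  have h2 := hc _ h1
  rw [pred_idx hi] at h2
  have h4 : (i + 1) % c.length < c.length := Nat.mod_lt _ (by omega)
  refine ⟨_, getD_mem h1, _, getD_mem h4, ?_, h2, hc i hi⟩
  intro heq
  have h5 := getD_inj hn h1 h4 heq
  have h6 := pred_idx hi
  rw [h5] at h6
  rcases Nat.lt_or_ge (i + 1) c.length with h7 | h7
  · rw [Nat.mod_eq_of_lt h7] at h6
    rcases Nat.lt_or_ge (i + 1 + 1) c.length with h8 | h8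
    · rw [Nat.mod_eq_of_lt h8] at h6
      omega
    · have h9 : i + 1 + 1 = c.length := by omega
      rw [h9, Nat.mod_self] at h6
      omega
  · have h9 : i + 1 = c.length := by omega
    rw [h9, Nat.mod_self, Nat.mod_eq_of_lt (by omega)] at h6
    omega

end Pool.Agent.X130.TF
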