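import Mathlib
import Pool.Agent.X130.TF.Defs
import Pool.Agent.X130.Sat

set_option autoImplicit false

/-!
# 2-factors with one prescribed directed cycle: the reduction from 3SAT
-/

namespace Pool.Agent.X130.TF

open Pool.Agent.NPC Pool.Agent.NPC.H634R2

/-- the length of a row, also the number of variables -/
def LL (φ : F3) : ℕ := 3 * φ.length + 3

/-- the side of a sign -/
def side (s : Bool) : ℕ := if s then 1 else 0

/-- the index of the vertex belonging to an occurrence -/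
def kO (L : ℕ) (p : Lit ℕ × ℕ) : ℕ := (2 * p.1.2 + side p.1.1) * L + p.2

/-- `k` is the index of an occurrence in the clause `c` -/
def occ (φ : F3) (c k : ℕ) : Bool :=
  (lits φ).any (fun p => decide (p.2 / 3 = c ∧ k = kO (LL φ) p))

/-- the arcs -/
def R (φ : F3) (a b : ℕ) : Bool :=
  decide ((a % 6 = 1 ∧ b % 6 = 0 ∧ a / 6 = b / 6) ∨ (a % 6 = 2 ∧ b % 6 = 0 ∧ a / 6 = b / 6) ∨
    (a % 6 = 1 ∧ (b % 6 = 2 ∨ b % 6 = 3) ∧ a / 6 = b / 6) ∨ (a % 6 = 3 ∧ b % 6 = 2 ∧ a / 6 = b / 6) ∨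
    (a % 6 = 0 ∧ b % 6 = 0 ∧ b / 6 = a / 6 + 1 ∧ b / 6 % LL φ ≠ 0) ∨
    (a % 6 = 4 ∧ b % 6 = 0 ∧ b / 6 % LL φ = 0 ∧ b / 6 / LL φ / 2 = a / 6) ∨
    (a % 6 = 0 ∧ (a / 6 + 1) % LL φ = 0 ∧ b % 6 = 4 ∧ b / 6 = (a / 6 / LL φ / 2 + 1) % LL φ) ∨
    (a % 6 = 5 ∧ b % 6 = 5 ∧ a / 6 % 2 = 0 ∧ b / 6 = a / 6 + 1)) ||
  (decide (a % 6 = 5 ∧ b % 6 = 0) && occ φ (a / 6 / 2) (b / 6))

/-- the vertices -/
def vs (φ : F3) : List ℕ :=
  (List.range (6 * (2 * LL φ * LL φ))).filter (fun x => decide (x % 6 ≤ 3 ∨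
    (x % 6 = 4 ∧ x / 6 < LL φ) ∨ (x % 6 = 5 ∧ x / 6 < 2 * φ.length)))

/-- the reduction -/
def red (φ : F3) : List ℕ × List (ℕ × ℕ) := (vs φ, relA (vs φ) (R φ))

attribute [local fun_prop] lits_poly

theorem LL_poly {α : Type} [TEnc α] {φ : α → F3} (h : NPC.Poly φ) : NPC.Poly (fun a => LL (φ a)) := by
  unfold LL
  fun_prop

attribute [local fun_prop] LL_poly

theorem vs_poly : NPC.Poly vs := by
  unfold vs
  refine NPC.Poly.filter (p := fun (φ : F3) x => decide (x % 6 ≤ 3 ∨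
    (x % 6 = 4 ∧ x / 6 < LL φ) ∨ (x % 6 = 5 ∧ x / 6 < 2 * φ.length))) ?_ (by fun_prop)
  have h : UPoly (fun φ : F3 => LL φ) := by
    unfold LL
    exact UPoly.add (UPoly.mul (UPoly.const 3) (UPoly.length NPC.Poly.id)) (UPoly.const 3)
  exact UPoly.range (UPoly.mul (UPoly.const 6) (UPoly.mul (UPoly.mul (UPoly.const 2) h) h))

theorem red_poly : NPC.Poly red := by
  unfold red
  refine NPC.Poly.pair vs_poly (relA_poly vs_poly ?_)
  have hl : NPC.Poly (fun a : (F3 × ℕ) × ℕ => lits a.1.1) := lits_poly.comp (by fun_prop)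
  unfold R occ kO side
  fun_prop

section
variable {φ : F3}

theorem LL_pos : 3 ≤ LL φ := by unfold LL; omega

theorem mem_vs {x : ℕ} : x ∈ vs φ ↔ x < 6 * (2 * LL φ * LL φ) ∧ (x % 6 ≤ 3 ∨
    (x % 6 = 4 ∧ x / 6 < LL φ) ∨ (x % 6 = 5 ∧ x / 6 < 2 * φ.length)) := by
  unfold vs
  rw [List.mem_filter, List.mem_range, decide_eq_true_eq]

theorem vs_nodup : (vs φ).Nodup := List.nodup_range.filter _

theorem R_irr (a : ℕ) : R φ a a = false := by
  unfold R
  rw [Bool.or_eq_false_iff]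
  constructor
  · rw [decide_eq_false_iff_not]
    omega
  · rw [Bool.and_eq_false_iff]
    left
    rw [decide_eq_false_iff_not]
    omega

theorem R_iff {a b : ℕ} : R φ a b = true ↔
    ((a % 6 = 1 ∧ b % 6 = 0 ∧ a / 6 = b / 6) ∨ (a % 6 = 2 ∧ b % 6 = 0 ∧ a / 6 = b / 6) ∨
    (a % 6 = 1 ∧ (b % 6 = 2 ∨ b % 6 = 3) ∧ a / 6 = b / 6) ∨ (a % 6 = 3 ∧ b % 6 = 2 ∧ a / 6 = b / 6) ∨
    (a % 6 = 0 ∧ b % 6 = 0 ∧ b / 6 = a / 6 + 1 ∧ b / 6 % LL φ ≠ 0) ∨
    (a % 6 = 4 ∧ b % 6 = 0 ∧ b / 6 % LL φ = 0 ∧ b / 6 / LL φ / 2 = a / 6) ∨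
    (a % 6 = 0 ∧ (a / 6 + 1) % LL φ = 0 ∧ b % 6 = 4 ∧ b / 6 = (a / 6 / LL φ / 2 + 1) % LL φ) ∨
    (a % 6 = 5 ∧ b % 6 = 5 ∧ a / 6 % 2 = 0 ∧ b / 6 = a / 6 + 1)) ∨
    (a % 6 = 5 ∧ b % 6 = 0 ∧ occ φ (a / 6 / 2) (b / 6) = true) := by
  unfold R
  rw [Bool.or_eq_true, decide_eq_true_eq, Bool.and_eq_true, decide_eq_true_eq, and_assoc]

theorem occ_iff {c k : ℕ} : occ φ c k = true ↔ ∃ p ∈ lits φ, p.2 / 3 = c ∧ k = kO (LL φ) p := by
  unfold occ
  simp only [List.any_eq_true, decide_eq_true_eq]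

theorem lits_lt {p : Lit ℕ × ℕ} (hp : p ∈ lits φ) : p.2 < 3 * φ.length := by
  have h : p.2 ∈ gV φ := List.mem_map.2 ⟨p, hp, rfl⟩
  exact mem_gV.1 h

theorem lits_var (hφ : Small φ) {p : Lit ℕ × ℕ} (hp : p ∈ lits φ) : p.1.2 < 3 * φ.length := by
  obtain ⟨l, t⟩ := p
  obtain ⟨c, hc, hl⟩ := mem_lits.1 hp
  have h1 := hφ c (List.mem_of_getElem? hc)
  have h2 := List.mem_of_getElem? hl
  simp only [List.mem_cons, List.not_mem_nil, or_false] at h2
  rcases h2 with rfl | rfl | rfl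
  · exact h1.1
  · exact h1.2.1
  · exact h1.2.2

/-- arithmetic of blocks -/
theorem blk_div {L s r : ℕ} (h : r < L) : (s * L + r) / L = s := by
  rw [mul_comm, Nat.mul_add_div (by omega), Nat.div_eq_of_lt h, add_zero]

theorem blk_mod {L s r : ℕ} (h : r < L) : (s * L + r) % L = r := by
  rw [mul_comm, Nat.mul_add_mod, Nat.mod_eq_of_lt h]

theorem blk_lt {L s r n : ℕ} (h : r < L) (hs : s < n) : s * L + r < n * L := by
  have : (s + 1) * L ≤ n * L := Nat.mul_le_mul_right _ hs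
  rw [Nat.add_mul] at this
  omega

/-! ### From a 2-factor to an assignment -/

/-- the vertex of side `s` of the variable `i` in position `t` -/
def yv (L i s t : ℕ) : ℕ := 6 * ((2 * i + s) * L + t)

theorem yv_mem {i s t : ℕ} (hi : i < LL φ) (hs : s < 2) (ht : t < LL φ) : yv (LL φ) i s t ∈ vs φ := by
  rw [mem_vs]
  have h1 := blk_lt (L := LL φ) (s := 2 * i + s) (r := t) (n := 2 * LL φ) ht (by omega)
  unfold yv
  refine ⟨by omega, Or.inl (by omega)⟩

/-- In a set of vertices in which every vertex has a successor and a predecessor, one side of every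
variable is contained. -/
theorem sides {S : List ℕ} (hS : ∃ x, x ∈ S) (hV : ∀ x ∈ S, x ∈ vs φ)
    (hsucc : ∀ x ∈ S, ∃ y ∈ S, R φ x y = true) (hpred : ∀ x ∈ S, ∃ y ∈ S, R φ y x = true) :
    (∀ x ∈ S, x % 6 = 0 ∨ x % 6 = 4) ∧
      ∀ i < LL φ, ∃ s < 2, ∀ t < LL φ, yv (LL φ) i s t ∈ S := by
  have hL := LL_pos (φ := φ)
  have h1 : ∀ x ∈ S, x % 6 ≠ 1 := by
    intro x hx h
    obtain ⟨y, _, hy⟩ := hpred x hx
    rw [R_iff] at hy
    omega
  have h3 : ∀ x ∈ S, x % 6 ≠ 3 := by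
    intro x hx h
    obtain ⟨y, hyS, hy⟩ := hpred x hx
    have := h1 y hyS
    rw [R_iff] at hy
    omega
  have h2 : ∀ x ∈ S, x % 6 ≠ 2 := by
    intro x hx h
    obtain ⟨y, hyS, hy⟩ := hpred x hx
    have := h1 y hyS
    have := h3 y hyS
    rw [R_iff] at hy
    omega
  have h5 : ∀ x ∈ S, x % 6 ≠ 5 := by
    intro x hx h
    obtain ⟨y, hyS, hy⟩ := hpred x hx
    obtain ⟨z, hzS, hz⟩ := hpred y hyS
    rw [R_iff] at hy hz
    omega
  have h04 : ∀ x ∈ S, x % 6 = 0 ∨ x % 6 = 4 := by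
    intro x hx
    have := h1 x hx
    have := h2 x hx
    have := h3 x hx
    have := h5 x hx
    omega
  refine ⟨h04, ?_⟩
  -- moving along a side
  have hrow : ∀ i s t, i < LL φ → s < 2 → t < LL φ → yv (LL φ) i s t ∈ S →
      ∀ t', t ≤ t' → t' < LL φ → yv (LL φ) i s t' ∈ S := by
    intro i s t hi hs ht h t' htt'
    induction t', htt' using Nat.le_induction with
    | base => intro _; exact h
    | succ t' htt' ih =>
      intro ht'
      have h6 := ih (by omega)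
      obtain ⟨y, hyS, hy⟩ := hsucc _ h6
      have hy04 := h04 y hyS
      have e0 : yv (LL φ) i s t' % 6 = 0 := by unfold yv; omega
      have e1 : yv (LL φ) i s t' / 6 = (2 * i + s) * LL φ + t' := by unfold yv; omega
      have e2 : ((2 * i + s) * LL φ + t' + 1) % LL φ = t' + 1 := by
        rw [Nat.add_assoc]
        exact blk_mod ht'
      rw [R_iff, e0, e1, e2] at hy
      have h7 : y % 6 = 0 ∧ y / 6 = (2 * i + s) * LL φ + t' + 1 := by omega
      have h8 : y = yv (LL φ) i s (t' + 1) := by unfold yv; omega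
      rw [← h8]
      exact hyS
  have hend : ∀ i s, i < LL φ → s < 2 → yv (LL φ) i s (LL φ - 1) ∈ S → 6 * ((i + 1) % LL φ) + 4 ∈ S := by
    intro i s hi hs h
    obtain ⟨y, hyS, hy⟩ := hsucc _ h
    have e0 : yv (LL φ) i s (LL φ - 1) % 6 = 0 := by unfold yv; omega
    have e1 : yv (LL φ) i s (LL φ - 1) / 6 = (2 * i + s) * LL φ + (LL φ - 1) := by unfold yv; omega
    have e2 : ((2 * i + s) * LL φ + (LL φ - 1) + 1) % LL φ = 0 := by
      have : (2 * i + s) * LL φ + (LL φ - 1) + 1 = (2 * i + s + 1) * LL φ := by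
        rw [Nat.add_mul (2 * i + s) 1]
        omega
      rw [this, Nat.mul_mod_left]
    have e3 : ((2 * i + s) * LL φ + (LL φ - 1)) / LL φ = 2 * i + s := blk_div (by omega)
    rw [R_iff, e0, e1, e2, e3] at hy
    have h6 : ¬ (y % 6 = 0 ∧ y / 6 = (2 * i + s) * LL φ + (LL φ - 1) + 1 ∧ y / 6 % LL φ ≠ 0) := by
      rintro ⟨_, h7, h8⟩
      rw [h7, e2] at h8
      exact h8 rfl
    have e4 : (2 * i + s) / 2 = i := by omega
    rw [e4] at hy
    have h7 : y % 6 = 4 ∧ y / 6 = (i + 1) % LL φ := by omega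
    have h8 : y = 6 * ((i + 1) % LL φ) + 4 := by omega
    rw [← h8]
    exact hyS
  have hside : ∀ i, i < LL φ → 6 * i + 4 ∈ S → ∃ s < 2, ∀ t < LL φ, yv (LL φ) i s t ∈ S := by
    intro i hi h
    obtain ⟨y, hyS, hy⟩ := hsucc _ h
    have e0 : (6 * i + 4) % 6 = 4 := by omega
    have e1 : (6 * i + 4) / 6 = i := by omega
    rw [R_iff, e0, e1] at hy
    have h6 : y % 6 = 0 ∧ y / 6 % LL φ = 0 ∧ y / 6 / LL φ / 2 = i := by omega
    obtain ⟨h7, h8, h9⟩ := h6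
    have h10 := Nat.div_add_mod (y / 6) (LL φ)
    rw [h8, add_zero] at h10
    set q := y / 6 / LL φ with hq
    have h11 : q = 2 * i + q % 2 := by omega
    refine ⟨q % 2, by omega, fun t ht => hrow i (q % 2) 0 hi (by omega) (by omega) ?_ t (by omega) ht⟩
    have h12 : y = yv (LL φ) i (q % 2) 0 := by
      unfold yv
      rw [← h11, mul_comm q, h10]
      omega
    rw [← h12]
    exact hyS
  have hnext : ∀ i, i < LL φ → 6 * i + 4 ∈ S → 6 * ((i + 1) % LL φ) + 4 ∈ S := by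
    intro i hi h
    obtain ⟨s, hs, h6⟩ := hside i hi h
    exact hend i s hi hs (h6 _ (by omega))
  have h0 : ∃ i < LL φ, 6 * i + 4 ∈ S := by
    obtain ⟨x, hx⟩ := hS
    rcases h04 x hx with h | h
    · have hxv := (mem_vs.1 (hV x hx)).1
      have h6 := Nat.div_add_mod (x / 6) (LL φ)
      have h7 := Nat.mod_lt (x / 6) (show 0 < LL φ by omega)
      have h8 : x / 6 / LL φ < 2 * LL φ := by
        rw [Nat.div_lt_iff_lt_mul (by omega)]
        omega
      have h9 : x = yv (LL φ) (x / 6 / LL φ / 2) (x / 6 / LL φ % 2) (x / 6 % LL φ) := by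
        unfold yv
        have : 2 * (x / 6 / LL φ / 2) + x / 6 / LL φ % 2 = x / 6 / LL φ := by omega
        rw [this, mul_comm (x / 6 / LL φ), h6]
        omega
      rw [h9] at hx
      have h10 := hend _ _ (by omega) (by omega)
        (hrow _ _ _ (by omega) (by omega) h7 hx (LL φ - 1) (by omega) (by omega))
      exact ⟨_, Nat.mod_lt _ (by omega), h10⟩
    · have h6 := (mem_vs.1 (hV x hx)).2
      refine ⟨x / 6, by omega, ?_⟩
      have : 6 * (x / 6) + 4 = x := by omega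
      rw [this]
      exact hx
  obtain ⟨i0, hi0, h0⟩ := h0
  have hall : ∀ d, 6 * ((i0 + d) % LL φ) + 4 ∈ S := by
    intro d
    induction d with
    | zero => simpa [Nat.mod_eq_of_lt hi0] using h0
    | succ d ih =>
      have h6 := hnext _ (Nat.mod_lt _ (by omega)) ih
      rwa [Nat.mod_add_mod] at h6
  intro i hi
  refine hside i hi ?_
  have h6 := hall (i + LL φ - i0)
  have h7 : i0 + (i + LL φ - i0) = i + LL φ := by omega
  rw [h7, Nat.add_mod_right, Nat.mod_eq_of_lt hi] at h6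
  exact h6
end

end Pool.Agent.X130.TF
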