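import Mathlib
import Pool.Agent.X130.TF.Red

set_option autoImplicit false

/-!
# 2-factors with one prescribed directed cycle: correctness and hardness
-/

namespace Pool.Agent.X130.TF

open Pool.Agent.NPC Pool.Agent.NPC.H634R2

variable {φ : F3}

theorem kO_eq {p : Lit ℕ × ℕ} : 6 * kO (LL φ) p = yv (LL φ) p.1.2 (side p.1.1) p.2 := rfl

theorem side_lt (s : Bool) : side s < 2 := by cases s <;> decide

theorem kO_mem (hφ : Small φ) {p : Lit ℕ × ℕ} (hp : p ∈ lits φ) : 6 * kO (LL φ) p ∈ vs φ := by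
  rw [kO_eq]
  have h1 := lits_var hφ hp
  have h2 := lits_lt hp
  exact yv_mem (by unfold LL; omega) (side_lt _) (by unfold LL; omega)

theorem clause_lits {j : ℕ} {c : Cl3} (hc : φ[j]? = some c) :
    (c.1, 3 * j) ∈ lits φ ∧ (c.2.1, 3 * j + 1) ∈ lits φ ∧ (c.2.2, 3 * j + 2) ∈ lits φ := by
  refine ⟨mem_lits.2 ⟨c, ?_, ?_⟩, mem_lits.2 ⟨c, ?_, ?_⟩, mem_lits.2 ⟨c, ?_, ?_⟩⟩
  · have : 3 * j / 3 = j := by omega
    rw [this]; exact hc
  · have : 3 * j % 3 = 0 := by omega
    rw [this]; rfl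
  · have : (3 * j + 1) / 3 = j := by omega
    rw [this]; exact hc
  · have : (3 * j + 1) % 3 = 1 := by omega
    rw [this]; rfl
  · have : (3 * j + 2) / 3 = j := by omega
    rw [this]; exact hc
  · have : (3 * j + 2) % 3 = 2 := by omega
    rw [this]; rfl

theorem clause_of_lits {p : Lit ℕ × ℕ} (hp : p ∈ lits φ) {c : Cl3} (hc : φ[p.2 / 3]? = some c) :
    p.1 = c.1 ∨ p.1 = c.2.1 ∨ p.1 = c.2.2 := by
  obtain ⟨l, t⟩ := p
  obtain ⟨c', hc', hl⟩ := mem_lits.1 hp
  simp only at hc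
  rw [hc] at hc'
  have := Option.some.inj hc'
  subst this
  have h2 := List.mem_of_getElem? hl
  simpa using h2

theorem isCycle3 {A : List (ℕ × ℕ)} {a b c : ℕ} (hab : a ≠ b) (hbc : b ≠ c) (hac : a ≠ c)
    (h1 : (a, b) ∈ A ∨ (b, a) ∈ A) (h2 : (b, c) ∈ A ∨ (c, b) ∈ A)
    (h3 : (c, a) ∈ A ∨ (a, c) ∈ A) : IsCycle A [a, b, c] := by
  refine ⟨by simp, by simp [hab, hbc, hac], ?_⟩
  intro i hi
  have h : i = 0 ∨ i = 1 ∨ i = 2 := by
    simp only [List.length_cons, List.length_nil] at hi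
    omega
  rcases h with rfl | rfl | rfl
  · simpa using h1
  · simpa using h2
  · simpa using h3

theorem isCycle4 {A : List (ℕ × ℕ)} {a b c d : ℕ} (hab : a ≠ b) (hac : a ≠ c) (had : a ≠ d)
    (hbc : b ≠ c) (hbd : b ≠ d) (hcd : c ≠ d)
    (h1 : (a, b) ∈ A ∨ (b, a) ∈ A) (h2 : (b, c) ∈ A ∨ (c, b) ∈ A)
    (h3 : (c, d) ∈ A ∨ (d, c) ∈ A) (h4 : (d, a) ∈ A ∨ (a, d) ∈ A) :
    IsCycle A [a, b, c, d] := by
  refine ⟨by simp, by simp [hab, hac, had, hbc, hbd, hcd], ?_⟩
  intro i hi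
  have h : i = 0 ∨ i = 1 ∨ i = 2 ∨ i = 3 := by
    simp only [List.length_cons, List.length_nil] at hi
    omega
  rcases h with rfl | rfl | rfl | rfl
  · simpa using h1
  · simpa using h2
  · simpa using h3
  · simpa using h4

theorem bwd (hφ : Small φ) (h : DirTwoFactor (red φ)) : SAT3 φ := by
  classical
  obtain ⟨-, c₁, Cs, hcyc, hperm, hdir⟩ := h
  simp only [red] at hcyc hperm hdir
  have hL := LL_pos (φ := φ)
  have hsub : ∀ c ∈ c₁ :: Cs, ∀ x ∈ c, x ∈ vs φ := fun c hc x hx =>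
    hperm.mem_iff.1 (List.mem_flatten.2 ⟨c, hc, hx⟩)
  have hnd : (c₁ :: Cs).flatten.Nodup := hperm.nodup_iff.2 vs_nodup
  have hc₁ := hcyc c₁ (List.mem_cons_self ..)
  have hS : ∃ x, x ∈ c₁ := by
    have := hc₁.1
    exact ⟨c₁.getD 0 0, getD_mem (by omega)⟩
  obtain ⟨h04, hsides⟩ := sides (S := c₁) hS (hsub c₁ (List.mem_cons_self ..))
    (fun x hx => by
      obtain ⟨y, hy, h⟩ := cyc_succ hdir hx
      exact ⟨y, hy, (mem_relA.1 h).2.2⟩)
    (fun x hx => by
      obtain ⟨y, hy, h⟩ := cyc_pred hdir hx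
      exact ⟨y, hy, (mem_relA.1 h).2.2⟩)
  refine ⟨fun i => decide (∀ t < LL φ, yv (LL φ) i 0 t ∈ c₁), ?_⟩
  -- an unvisited occurrence is true
  have hocc : ∀ p ∈ lits φ, 6 * kO (LL φ) p ∉ c₁ →
      decide (∀ t < LL φ, yv (LL φ) p.1.2 0 t ∈ c₁) = p.1.1 := by
    intro p hp hnot
    have h1 := lits_var hφ hp
    have h2 := lits_lt hp
    rw [kO_eq] at hnot
    obtain ⟨s, hs, hall⟩ := hsides p.1.2 (by unfold LL; omega)
    have h3 : s ≠ side p.1.1 := by
      rintro rfl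
      exact hnot (hall _ (by unfold LL; omega))
    cases hb : p.1.1 with
    | true =>
      rw [hb] at h3
      have : s = 0 := by simp [side] at h3; omega
      subst this
      exact decide_eq_true hall
    | false =>
      rw [hb] at hnot
      refine decide_eq_false fun h4 => hnot (h4 _ (by unfold LL; omega))
  intro cl hcl
  obtain ⟨j, hj, hjc⟩ := List.getElem_of_mem hcl
  have hjc' : φ[j]? = some cl := by rw [List.getElem?_eq_getElem hj, hjc]
  -- the cycle through `w_j`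
  have hLL : 2 * LL φ * 3 ≤ 2 * LL φ * LL φ := Nat.mul_le_mul_left _ hL
  have hw : 12 * j + 5 ∈ vs φ := by
    rw [mem_vs]
    have h1 : 12 * j + 5 < 6 * (2 * LL φ * 3) := by unfold LL; omega
    refine ⟨by omega, Or.inr (Or.inr ⟨by omega, by omega⟩)⟩
  obtain ⟨C, hC, hwC⟩ := List.mem_flatten.1 (hperm.mem_iff.2 hw)
  have hCne : C ∈ Cs := by
    rcases List.mem_cons.1 hC with rfl | h
    · exfalso
      have := h04 _ hwC
      omega
    · exact h
  obtain ⟨a, ha, b, hb, hab, hav, hbv⟩ := two_nbrs (hcyc C hC) hwC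
  have hnb : ∀ x ∈ C, ((x, 12 * j + 5) ∈ relA (vs φ) (R φ) ∨ (12 * j + 5, x) ∈ relA (vs φ) (R φ)) →
      x = 12 * j + 11 ∨ ∃ p ∈ lits φ, p.2 / 3 = j ∧ x = 6 * kO (LL φ) p := by
    intro x _ hx
    rw [mem_relA, mem_relA, R_iff, R_iff] at hx
    have e1 : (12 * j + 5) % 6 = 5 := by omega
    have e2 : (12 * j + 5) / 6 = 2 * j := by omega
    have e3 : 2 * j / 2 = j := by omega
    rw [e1, e2, e3] at hx
    by_cases h6 : x % 6 = 0 ∧ occ φ j (x / 6) = true
    · right
      obtain ⟨p, hp, h7, h8⟩ := occ_iff.1 h6.2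
      exact ⟨p, hp, h7, by omega⟩
    · left
      rcases hx with ⟨_, _, hx⟩ | ⟨_, _, hx⟩
      · omega
      · rcases hx with hx | hx
        · omega
        · exact absurd ⟨hx.2.1, hx.2.2⟩ h6
  have hy : ∃ p ∈ lits φ, p.2 / 3 = j ∧ 6 * kO (LL φ) p ∈ C := by
    rcases hnb a ha hav with h1 | ⟨p, hp, h1, h2⟩
    · rcases hnb b hb hbv.symm with h3 | ⟨p, hp, h3, h4⟩
      · exact absurd (h1.trans h3.symm) hab
      · exact ⟨p, hp, h3, h4 ▸ hb⟩
    · exact ⟨p, hp, h1, h2 ▸ ha⟩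
  obtain ⟨p, hp, hpj, hpC⟩ := hy
  have hpn : 6 * kO (LL φ) p ∉ c₁ := by
    intro h
    rw [List.flatten_cons, List.nodup_append'] at hnd
    exact hnd.2.2 h (List.mem_flatten.2 ⟨C, hCne, hpC⟩)
  have h5 := hocc p hp hpn
  rw [← hpj] at hjc'
  rcases clause_of_lits hp hjc' with h | h | h
  · left
    rw [← h]; exact h5
  · right; left
    rw [← h]; exact h5
  · right; right
    rw [← h]; exact h5

/-! ### From an assignment to a 2-factor -/

section fwd
variable (φ) (τ : ℕ → Bool) (ch : ℕ → Lit ℕ × ℕ)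

/-- the visited side -/
def sd (i : ℕ) : ℕ := if τ i then 0 else 1

/-- the long cycle -/
def g (x : ℕ) : ℕ :=
  if x % (LL φ + 1) = 0 then 6 * (x / (LL φ + 1)) + 4
  else yv (LL φ) (x / (LL φ + 1)) (sd τ (x / (LL φ + 1))) (x % (LL φ + 1) - 1)

/-- the first cycle -/
def cyc1 : List ℕ := (List.range (LL φ * (LL φ + 1))).map (g φ τ)

/-- visited indices -/
def vis (k : ℕ) : Bool := decide (k / LL φ % 2 = sd τ (k / LL φ / 2))

/-- indices used for clauses -/
def chosen (k : ℕ) : Bool := (List.range φ.length).any (fun c => decide (k = kO (LL φ) (ch c)))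

/-- the cycle of an index -/
def qc (k : ℕ) : List ℕ :=
  if vis φ τ k || chosen φ ch k then [6 * k + 1, 6 * k + 3, 6 * k + 2]
  else [6 * k, 6 * k + 1, 6 * k + 3, 6 * k + 2]

/-- the triangle of a clause -/
def tri (c : ℕ) : List ℕ := [12 * c + 5, 12 * c + 11, 6 * kO (LL φ) (ch c)]

/-- the other cycles -/
def cycs : List (List ℕ) :=
  (List.range φ.length).map (tri φ ch) ++ (List.range (2 * LL φ * LL φ)).map (qc φ τ ch)

variable {φ τ ch}

theorem sd_lt (i : ℕ) : sd τ i < 2 := by unfold sd; split_ifs <;> omega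

theorem g_head {i : ℕ} : g φ τ (i * (LL φ + 1)) = 6 * i + 4 := by
  unfold g
  rw [if_pos (Nat.mul_mod_left _ _), Nat.mul_div_cancel _ (by omega)]

theorem g_row {i t : ℕ} (ht : t < LL φ) :
    g φ τ (i * (LL φ + 1) + (t + 1)) = yv (LL φ) i (sd τ i) t := by
  have h1 : (i * (LL φ + 1) + (t + 1)) % (LL φ + 1) = t + 1 := blk_mod (by omega)
  have h2 : (i * (LL φ + 1) + (t + 1)) / (LL φ + 1) = i := blk_div (by omega)
  unfold g
  rw [h1, h2, if_neg (by omega), Nat.add_sub_cancel]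

/-- decomposition of the indices of the long cycle -/
theorem idx_cases {n : ℕ} (hn : n < LL φ * (LL φ + 1)) :
    ∃ i < LL φ, n = i * (LL φ + 1) ∨ ∃ t < LL φ, n = i * (LL φ + 1) + (t + 1) := by
  have h1 := Nat.div_add_mod n (LL φ + 1)
  have h2 := Nat.mod_lt n (show 0 < LL φ + 1 by omega)
  refine ⟨n / (LL φ + 1), (Nat.div_lt_iff_lt_mul (by omega)).2 hn, ?_⟩
  rw [mul_comm] at h1
  by_cases h3 : n % (LL φ + 1) = 0
  · left; omega
  · right
    exact ⟨n % (LL φ + 1) - 1, by omega, by omega⟩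

theorem yv_div {i s t : ℕ} : yv (LL φ) i s t / 6 = (2 * i + s) * LL φ + t := by unfold yv; omega

theorem yv_mod {i s t : ℕ} : yv (LL φ) i s t % 6 = 0 := by unfold yv; omega

theorem vis_iff {i s t : ℕ} (hs : s < 2) (ht : t < LL φ) :
    vis φ τ ((2 * i + s) * LL φ + t) = true ↔ s = sd τ i := by
  unfold vis
  rw [decide_eq_true_eq, blk_div ht]
  have h1 : (2 * i + s) % 2 = s := by omega
  have h2 : (2 * i + s) / 2 = i := by omega
  rw [h1, h2]

theorem mem_cyc1 {x : ℕ} : x ∈ cyc1 φ τ ↔ (∃ i < LL φ, x = 6 * i + 4) ∨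
    ∃ k < 2 * LL φ * LL φ, x = 6 * k ∧ vis φ τ k = true := by
  have hL := LL_pos (φ := φ)
  unfold cyc1
  simp only [List.mem_map, List.mem_range]
  constructor
  · rintro ⟨n, hn, rfl⟩
    obtain ⟨i, hi, rfl | ⟨t, ht, rfl⟩⟩ := idx_cases hn
    · left
      exact ⟨i, hi, g_head⟩
    · right
      have h1 := sd_lt (τ := τ) i
      refine ⟨(2 * i + sd τ i) * LL φ + t, blk_lt ht (by omega), ?_, (vis_iff h1 ht).2 rfl⟩
      rw [g_row ht]
      rfl
  · rintro (⟨i, hi, rfl⟩ | ⟨k, hk, rfl, hv⟩)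
    · refine ⟨i * (LL φ + 1), Nat.mul_lt_mul_of_pos_right hi (by omega), g_head⟩
    · have h1 := Nat.div_add_mod k (LL φ)
      have h2 := Nat.mod_lt k (show 0 < LL φ by omega)
      have h3 : k / LL φ < 2 * LL φ := (Nat.div_lt_iff_lt_mul (by omega)).2 hk
      unfold vis at hv
      rw [decide_eq_true_eq] at hv
      refine ⟨k / LL φ / 2 * (LL φ + 1) + (k % LL φ + 1), blk_lt (by omega) (by omega), ?_⟩
      rw [g_row h2]
      unfold yv
      have h4 : 2 * (k / LL φ / 2) + sd τ (k / LL φ / 2) = k / LL φ := by omega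
      rw [h4, mul_comm (k / LL φ), h1]

theorem cyc1_nodup : (cyc1 φ τ).Nodup := by
  have hL := LL_pos (φ := φ)
  unfold cyc1
  refine List.Nodup.map_on ?_ List.nodup_range
  intro n hn n' hn' h
  obtain ⟨i, hi, rfl | ⟨t, ht, rfl⟩⟩ := idx_cases (List.mem_range.1 hn) <;>
    obtain ⟨i', hi', rfl | ⟨t', ht', rfl⟩⟩ := idx_cases (List.mem_range.1 hn')
  · rw [g_head, g_head] at h
    have : i = i' := by omega
    rw [this]
  · rw [g_head, g_row ht'] at h
    have := yv_mod (φ := φ) (i := i') (s := sd τ i') (t := t')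
    omega
  · rw [g_head, g_row ht] at h
    have := yv_mod (φ := φ) (i := i) (s := sd τ i) (t := t)
    omega
  · rw [g_row ht, g_row ht'] at h
    unfold yv at h
    have h1 : (2 * i + sd τ i) * LL φ + t = (2 * i' + sd τ i') * LL φ + t' := by omega
    have h2 : ((2 * i + sd τ i) * LL φ + t) / LL φ = ((2 * i' + sd τ i') * LL φ + t') / LL φ := by
      rw [h1]
    rw [blk_div ht, blk_div ht'] at h2
    have h3 := sd_lt (τ := τ) i
    have h4 := sd_lt (τ := τ) i'
    have h5 : i = i' := by omega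
    subst h5
    have h6 : t = t' := by omega
    rw [h6]

theorem cyc1_sub : ∀ x ∈ cyc1 φ τ, x ∈ vs φ := by
  intro x hx
  have hL := LL_pos (φ := φ)
  have hLL : 2 * LL φ * 3 ≤ 2 * LL φ * LL φ := Nat.mul_le_mul_left _ hL
  rw [mem_vs]
  rcases mem_cyc1.1 hx with ⟨i, hi, rfl⟩ | ⟨k, hk, rfl, _⟩
  · exact ⟨by omega, Or.inr (Or.inl ⟨by omega, by omega⟩)⟩
  · exact ⟨by omega, Or.inl (by omega)⟩

theorem getD_map_range {f : ℕ → ℕ} {n i : ℕ} (h : i < n) : ((List.range n).map f).getD i 0 = f i := by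
  rw [List.getD_eq_getElem?_getD, List.getElem?_map, List.getElem?_range h]
  rfl

theorem R_next {n : ℕ} (hn : n < LL φ * (LL φ + 1)) :
    R φ (g φ τ n) (g φ τ ((n + 1) % (LL φ * (LL φ + 1)))) = true := by
  have hL := LL_pos (φ := φ)
  obtain ⟨i, hi, rfl | ⟨t, ht, rfl⟩⟩ := idx_cases hn
  · have h1 := blk_lt (L := LL φ + 1) (s := i) (r := 1) (n := LL φ) (by omega) hi
    rw [Nat.mod_eq_of_lt h1, g_head]
    have h2 : i * (LL φ + 1) + 1 = i * (LL φ + 1) + (0 + 1) := by omega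
    rw [h2, g_row (by omega), R_iff, yv_div, yv_mod, add_zero, Nat.mul_div_cancel _ (by omega),
      Nat.mul_mod_left]
    have := sd_lt (τ := τ) i
    omega
  · by_cases h1 : t + 1 < LL φ
    · have h2 := blk_lt (L := LL φ + 1) (s := i) (r := t + 1 + 1) (n := LL φ) (by omega) hi
      have h3 : i * (LL φ + 1) + (t + 1) + 1 = i * (LL φ + 1) + (t + 1 + 1) := by omega
      rw [h3, Nat.mod_eq_of_lt h2, g_row ht, g_row h1, R_iff, yv_div, yv_mod, yv_div, yv_mod,
        blk_mod h1]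
      omega
    · have h2 : t = LL φ - 1 := by omega
      subst h2
      have h3 : i * (LL φ + 1) + (LL φ - 1 + 1) + 1 = (i + 1) * (LL φ + 1) := by
        rw [Nat.add_mul i 1]
        omega
      have h4 : (2 * i + sd τ i) * LL φ + (LL φ - 1) + 1 = (2 * i + sd τ i + 1) * LL φ := by
        rw [Nat.add_mul (2 * i + sd τ i) 1]
        omega
      have h5 := sd_lt (τ := τ) i
      rw [h3, g_row ht]
      by_cases h6 : i + 1 < LL φ
      · rw [Nat.mod_eq_of_lt (Nat.mul_lt_mul_of_pos_right h6 (by omega)), g_head, R_iff, yv_div,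
          yv_mod, h4, Nat.mul_mod_left, blk_div (by omega)]
        have h7 : (2 * i + sd τ i) / 2 = i := by omega
        rw [h7, Nat.mod_eq_of_lt h6]
        omega
      · have h7 : i + 1 = LL φ := by omega
        rw [h7, Nat.mod_self]
        have h8 : g φ τ 0 = 4 := by
          have := g_head (φ := φ) (τ := τ) (i := 0)
          rw [Nat.zero_mul] at this
          exact this
        rw [h8, R_iff, yv_div, yv_mod, h4, Nat.mul_mod_left, blk_div (by omega)]
        have h9 : (2 * i + sd τ i) / 2 = i := by omega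
        rw [h9, h7, Nat.mod_self]
        omega

theorem cyc1_dir : Cyclic (fun u v => (u, v) ∈ relA (vs φ) (R φ)) (cyc1 φ τ) := by
  intro n hn
  have hlen : (cyc1 φ τ).length = LL φ * (LL φ + 1) := by
    unfold cyc1
    rw [List.length_map, List.length_range]
  have h1 : (n + 1) % (cyc1 φ τ).length < (cyc1 φ τ).length := Nat.mod_lt _ (by omega)
  rw [mem_relA]
  refine ⟨cyc1_sub _ (getD_mem hn), cyc1_sub _ (getD_mem h1), ?_⟩
  rw [hlen] at hn h1 ⊢
  unfold cyc1
  rw [getD_map_range hn, getD_map_range h1]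
  exact R_next hn

theorem cyc1_cycle : IsCycle (relA (vs φ) (R φ)) (cyc1 φ τ) := by
  have hL := LL_pos (φ := φ)
  refine ⟨?_, cyc1_nodup, fun i hi => Or.inl (cyc1_dir i hi)⟩
  unfold cyc1
  rw [List.length_map, List.length_range]
  have : 3 * (LL φ + 1) ≤ LL φ * (LL φ + 1) := Nat.mul_le_mul_right _ hL
  omega

section main
variable (hφ : Small φ) (hch : ∀ c < φ.length, ch c ∈ lits φ ∧ (ch c).2 / 3 = c ∧
  τ (ch c).1.2 = (ch c).1.1)
include hφ hch

omit hφ in
theorem kO_mod {c : ℕ} (hc : c < φ.length) : kO (LL φ) (ch c) % LL φ = (ch c).2 := by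
  have := lits_lt (hch c hc).1
  unfold kO
  exact blk_mod (by unfold LL; omega)

omit hφ in
theorem kO_inj {c c' : ℕ} (hc : c < φ.length) (hc' : c' < φ.length)
    (h : kO (LL φ) (ch c) = kO (LL φ) (ch c')) : c = c' := by
  have h1 := kO_mod hch hc
  have h2 := kO_mod hch hc'
  have h3 := (hch c hc).2.1
  have h4 := (hch c' hc').2.1
  rw [h] at h1
  omega

omit hφ in
theorem not_vis {c : ℕ} (hc : c < φ.length) : vis φ τ (kO (LL φ) (ch c)) = false := by
  have h1 := lits_lt (hch c hc).1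
  rw [← Bool.not_eq_true]
  unfold kO
  rw [vis_iff (side_lt _) (by unfold LL; omega)]
  unfold side sd
  rw [(hch c hc).2.2]
  cases (ch c).1.1 <;> simp

theorem tri_cycle {c : ℕ} (hc : c < φ.length) : IsCycle (relA (vs φ) (R φ)) (tri φ ch c) := by
  have hL := LL_pos (φ := φ)
  have hLL : 2 * LL φ * 3 ≤ 2 * LL φ * LL φ := Nat.mul_le_mul_left _ hL
  have hb : 12 * c + 11 < 6 * (2 * LL φ * 3) := by unfold LL; omega
  have m1 : 12 * c + 5 ∈ vs φ := by
    rw [mem_vs]
    exact ⟨by omega, Or.inr (Or.inr ⟨by omega, by omega⟩)⟩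
  have m2 : 12 * c + 11 ∈ vs φ := by
    rw [mem_vs]
    exact ⟨by omega, Or.inr (Or.inr ⟨by omega, by omega⟩)⟩
  have m3 := kO_mem hφ (hch c hc).1
  have hocc : occ φ c (kO (LL φ) (ch c)) = true := occ_iff.2 ⟨ch c, (hch c hc).1, (hch c hc).2.1, rfl⟩
  have e1 : (12 * c + 5) / 6 = 2 * c := by omega
  have e2 : (12 * c + 11) / 6 = 2 * c + 1 := by omega
  have e3 : 2 * c / 2 = c := by omega
  have e4 : (2 * c + 1) / 2 = c := by omega
  have e5 : 6 * kO (LL φ) (ch c) / 6 = kO (LL φ) (ch c) := by omega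
  have r1 : R φ (12 * c + 5) (12 * c + 11) = true := by rw [R_iff]; omega
  have r2 : R φ (12 * c + 11) (6 * kO (LL φ) (ch c)) = true := by
    rw [R_iff, e2, e4, e5]
    exact Or.inr ⟨by omega, by omega, hocc⟩
  have r3 : R φ (12 * c + 5) (6 * kO (LL φ) (ch c)) = true := by
    rw [R_iff, e1, e3, e5]
    exact Or.inr ⟨by omega, by omega, hocc⟩
  have a1 := mem_relA.2 ⟨m1, m2, r1⟩
  have a2 := mem_relA.2 ⟨m2, m3, r2⟩
  have a3 := mem_relA.2 ⟨m1, m3, r3⟩
  unfold tri
  exact isCycle3 (by omega) (by omega) (by omega) (Or.inl a1) (Or.inl a2) (Or.inr a3)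

omit hφ hch in
theorem qc_cycle {k : ℕ} (hk : k < 2 * LL φ * LL φ) : IsCycle (relA (vs φ) (R φ)) (qc φ τ ch k) := by
  have mm : ∀ r ≤ 3, 6 * k + r ∈ vs φ := fun r hr => by
    rw [mem_vs]
    exact ⟨by omega, Or.inl (by omega)⟩
  have m0 := mm 0 (by omega)
  have m1 := mm 1 (by omega)
  have m2 := mm 2 (by omega)
  have m3 := mm 3 (by omega)
  rw [add_zero] at m0
  have d0 : 6 * k % 6 = 0 := by omega
  have d1 : (6 * k + 1) % 6 = 1 := by omega
  have d2 : (6 * k + 2) % 6 = 2 := by omega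
  have d3 : (6 * k + 3) % 6 = 3 := by omega
  have q0 : 6 * k / 6 = k := by omega
  have q1 : (6 * k + 1) / 6 = k := by omega
  have q2 : (6 * k + 2) / 6 = k := by omega
  have q3 : (6 * k + 3) / 6 = k := by omega
  have r1 : R φ (6 * k + 1) (6 * k + 3) = true :=
    R_iff.2 (Or.inl (Or.inr (Or.inr (Or.inl ⟨d1, Or.inr d3, q1.trans q3.symm⟩))))
  have r2 : R φ (6 * k + 3) (6 * k + 2) = true :=
    R_iff.2 (Or.inl (Or.inr (Or.inr (Or.inr (Or.inl ⟨d3, d2, q3.trans q2.symm⟩)))))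
  have r3 : R φ (6 * k + 1) (6 * k + 2) = true :=
    R_iff.2 (Or.inl (Or.inr (Or.inr (Or.inl ⟨d1, Or.inl d2, q1.trans q2.symm⟩))))
  have r4 : R φ (6 * k + 1) (6 * k) = true :=
    R_iff.2 (Or.inl (Or.inl ⟨d1, d0, q1.trans q0.symm⟩))
  have r5 : R φ (6 * k + 2) (6 * k) = true :=
    R_iff.2 (Or.inl (Or.inr (Or.inl ⟨d2, d0, q2.trans q0.symm⟩)))
  have a1 := mem_relA.2 ⟨m1, m3, r1⟩
  have a2 := mem_relA.2 ⟨m3, m2, r2⟩
  have a3 := mem_relA.2 ⟨m1, m2, r3⟩
  have a4 := mem_relA.2 ⟨m1, m0, r4⟩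
  have a5 := mem_relA.2 ⟨m2, m0, r5⟩
  unfold qc
  cases (vis φ τ k || chosen φ ch k) with
  | true =>
    rw [if_pos rfl]
    exact isCycle3 (by omega) (by omega) (by omega) (Or.inl a1) (Or.inl a2) (Or.inr a3)
  | false =>
    rw [if_neg (by simp)]
    exact isCycle4 (by omega) (by omega) (by omega) (by omega) (by omega) (by omega)
      (Or.inr a4) (Or.inl a1) (Or.inl a2) (Or.inl a5)

omit hφ hch in
theorem mem_tris {x : ℕ} : x ∈ ((List.range φ.length).map (tri φ ch)).flatten ↔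
    ∃ c < φ.length, x = 12 * c + 5 ∨ x = 12 * c + 11 ∨ x = 6 * kO (LL φ) (ch c) := by
  simp only [List.mem_flatten, List.mem_map, List.mem_range]
  constructor
  · rintro ⟨l, ⟨c, hc, rfl⟩, hx⟩
    refine ⟨c, hc, ?_⟩
    simpa [tri] using hx
  · rintro ⟨c, hc, hx⟩
    exact ⟨_, ⟨c, hc, rfl⟩, by simpa [tri] using hx⟩

omit hφ hch in
theorem mem_qc {k x : ℕ} : x ∈ qc φ τ ch k ↔ x = 6 * k + 1 ∨ x = 6 * k + 3 ∨ x = 6 * k + 2 ∨
    (x = 6 * k ∧ (vis φ τ k || chosen φ ch k) = false) := by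
  unfold qc
  split_ifs with h
  · simp [h]
  · simp only [Bool.not_eq_true] at h
    simp only [List.mem_cons, List.not_mem_nil, or_false, h, and_true]
    tauto

omit hφ hch in
theorem mem_qcs {x : ℕ} : x ∈ ((List.range (2 * LL φ * LL φ)).map (qc φ τ ch)).flatten ↔
    ∃ k < 2 * LL φ * LL φ, x = 6 * k + 1 ∨ x = 6 * k + 3 ∨ x = 6 * k + 2 ∨
      (x = 6 * k ∧ (vis φ τ k || chosen φ ch k) = false) := by
  simp only [List.mem_flatten, List.mem_map, List.mem_range]
  constructor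
  · rintro ⟨l, ⟨k, hk, rfl⟩, hx⟩
    exact ⟨k, hk, mem_qc.1 hx⟩
  · rintro ⟨k, hk, hx⟩
    exact ⟨_, ⟨k, hk, rfl⟩, mem_qc.2 hx⟩

omit hφ in
theorem chosen_iff {k : ℕ} : chosen φ ch k = true ↔ ∃ c < φ.length, k = kO (LL φ) (ch c) := by
  unfold chosen
  simp only [List.any_eq_true, List.mem_range, decide_eq_true_eq]

omit hφ in
theorem flat_nodup : (cyc1 φ τ :: cycs φ τ ch).flatten.Nodup := by
  rw [List.flatten_cons]
  unfold cycs
  rw [List.flatten_append, List.nodup_append', List.nodup_append']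
  refine ⟨cyc1_nodup, ⟨?_, ?_, ?_⟩, ?_⟩
  · rw [List.nodup_flatten]
    constructor
    · intro l hl
      obtain ⟨c, _, rfl⟩ := List.mem_map.1 hl
      unfold tri
      simp
      omega
    · rw [List.pairwise_map]
      refine List.Pairwise.imp_of_mem ?_ (List.nodup_range (n := φ.length))
      intro c c' hc hc' hne x hx hx'
      rw [List.mem_range] at hc hc'
      simp only [tri, List.mem_cons, List.not_mem_nil, or_false] at hx hx'
      have := kO_inj hch hc hc'
      omega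
  · rw [List.nodup_flatten]
    constructor
    · intro l hl
      obtain ⟨c, _, rfl⟩ := List.mem_map.1 hl
      unfold qc
      split_ifs <;> simp
    · rw [List.pairwise_map]
      refine List.Pairwise.imp_of_mem ?_ (List.nodup_range (n := 2 * LL φ * LL φ))
      intro c c' hc hc' hne x hx hx'
      rw [mem_qc] at hx hx'
      omega
  · intro x hx hx'
    obtain ⟨c, hc, h⟩ := mem_tris.1 hx
    obtain ⟨k, hk, h'⟩ := mem_qcs.1 hx'
    by_cases h1 : x = 6 * kO (LL φ) (ch c)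
    · have h2 : k = kO (LL φ) (ch c) := by omega
      have h3 : chosen φ ch k = true := (chosen_iff hch).2 ⟨c, hc, h2⟩
      have h4 : (vis φ τ k || chosen φ ch k) = false := by
        rcases h' with h' | h' | h' | h'
        · omega
        · omega
        · omega
        · exact h'.2
      rw [h3, Bool.or_true] at h4
      exact absurd h4 (by simp)
    · omega
  · intro x hx hx'
    rw [List.mem_append] at hx'
    rcases hx' with hx' | hx'
    · obtain ⟨c, hc, h⟩ := mem_tris.1 hx'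
      rcases mem_cyc1.1 hx with ⟨i, hi, rfl⟩ | ⟨k, hk, rfl, hv⟩
      · omega
      · have h1 : k = kO (LL φ) (ch c) := by omega
        rw [h1, not_vis hch hc] at hv
        exact absurd hv (by simp)
    · obtain ⟨k, hk, h⟩ := mem_qcs.1 hx'
      rcases mem_cyc1.1 hx with ⟨i, hi, rfl⟩ | ⟨k', hk', rfl, hv⟩
      · omega
      · have h1 : k' = k := by omega
        subst h1
        have h4 : (vis φ τ k' || chosen φ ch k') = false := by
          rcases h with h' | h' | h' | h'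
          · omega
          · omega
          · omega
          · exact h'.2
        rw [hv, Bool.true_or] at h4
        exact absurd h4 (by simp)

theorem flat_perm : (cyc1 φ τ :: cycs φ τ ch).flatten.Perm (vs φ) := by
  have hL := LL_pos (φ := φ)
  have hLL : 2 * LL φ * 3 ≤ 2 * LL φ * LL φ := Nat.mul_le_mul_left _ hL
  rw [List.perm_ext_iff_of_nodup (flat_nodup hch) vs_nodup]
  intro x
  rw [List.flatten_cons]
  unfold cycs
  rw [List.flatten_append, List.mem_append, List.mem_append]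
  constructor
  · rintro (h | h | h)
    · exact cyc1_sub _ h
    · obtain ⟨c, hc, h⟩ := mem_tris.1 h
      have hb : 12 * c + 11 < 6 * (2 * LL φ * 3) := by unfold LL; omega
      rcases h with rfl | rfl | rfl
      · rw [mem_vs]
        exact ⟨by omega, Or.inr (Or.inr ⟨by omega, by omega⟩)⟩
      · rw [mem_vs]
        exact ⟨by omega, Or.inr (Or.inr ⟨by omega, by omega⟩)⟩
      · exact kO_mem hφ (hch c hc).1
    · obtain ⟨k, hk, h⟩ := mem_qcs.1 h
      rw [mem_vs]
      exact ⟨by omega, Or.inl (by omega)⟩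
  · intro h
    obtain ⟨h1, h2⟩ := mem_vs.1 h
    rcases h2 with h2 | h2 | h2
    · by_cases h3 : x % 6 = 0
      · cases h4 : vis φ τ (x / 6) with
        | true => exact Or.inl (mem_cyc1.2 (Or.inr ⟨x / 6, by omega, by omega, h4⟩))
        | false =>
          cases h5 : chosen φ ch (x / 6) with
          | true =>
            obtain ⟨c, hc, h6⟩ := (chosen_iff hch).1 h5
            exact Or.inr (Or.inl (mem_tris.2 ⟨c, hc, by omega⟩))
          | false =>
            refine Or.inr (Or.inr (mem_qcs.2 ⟨x / 6, by omega, Or.inr (Or.inr (Or.inr ⟨by omega, ?_⟩))⟩))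
            rw [h4, h5]
            rfl
      · exact Or.inr (Or.inr (mem_qcs.2 ⟨x / 6, by omega, by omega⟩))
    · exact Or.inl (mem_cyc1.2 (Or.inl ⟨x / 6, by omega, by omega⟩))
    · exact Or.inr (Or.inl (mem_tris.2 ⟨x / 6 / 2, by omega, by omega⟩))

theorem good_of : Good (vs φ) (relA (vs φ) (R φ)) := by
  refine ⟨cyc1 φ τ, cycs φ τ ch, ?_, flat_perm hφ hch, cyc1_dir⟩
  intro c hc
  rcases List.mem_cons.1 hc with rfl | hc
  · exact cyc1_cycle
  · unfold cycs at hc
    rcases List.mem_append.1 hc with hc | hc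
    · obtain ⟨j, hj, rfl⟩ := List.mem_map.1 hc
      exact tri_cycle hφ hch (List.mem_range.1 hj)
    · obtain ⟨k, hk, rfl⟩ := List.mem_map.1 hc
      exact qc_cycle (List.mem_range.1 hk)
end main
end fwd

theorem fwd (hφ : Small φ) (h : SAT3 φ) : DirTwoFactor (red φ) := by
  classical
  obtain ⟨τ, hτ⟩ := h
  refine ⟨isDigraph_relA vs_nodup R_irr, ?_⟩
  have hex : ∀ c, ∃ p : Lit ℕ × ℕ, c < φ.length → p ∈ lits φ ∧ p.2 / 3 = c ∧ τ p.1.2 = p.1.1 := by
    intro j
    by_cases hj : j < φ.length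
    · obtain ⟨c, hc⟩ : ∃ c, φ[j]? = some c := ⟨φ[j], List.getElem?_eq_getElem hj⟩
      obtain ⟨h1, h2, h3⟩ := clause_lits hc
      rcases hτ c (List.mem_of_getElem? hc) with h | h | h
      · exact ⟨_, fun _ => ⟨h1, by simp only; omega, h⟩⟩
      · exact ⟨_, fun _ => ⟨h2, by simp only; omega, h⟩⟩
      · exact ⟨_, fun _ => ⟨h3, by simp only; omega, h⟩⟩
    · exact ⟨((true, 0), 0), fun h => absurd h hj⟩
  choose ch hch using hex
  exact good_of hφ hch

/-- Deciding property `Π` is NP-hard. -/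
theorem hard : NPHardP DirTwoFactor := by
  refine (hardPr_small.trans (Pr' := fun _ => True) red_poly (fun _ _ => trivial)
    ?_).toHardI.toNPHardP
  intro φ hφ
  exact ⟨fwd hφ.1, bwd hφ.1⟩

end Pool.Agent.X130.TF
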